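import Mathlib
import Pool.Agent.Lib.MP_0e6637_co.Assemble

set_option autoImplicit false

/-!
For every `n ≥ 35` there are a strictly convex norm on `ℝ^n` and an infinite set `M` with
`χ(ℝ^n, N, M) ≥ 3`.
-/

namespace Pool.Agent.Results.MP_0e6637_co.EveryDimension

/-- `N` is a norm on `ℝ^n` (here `Fin n → ℝ`). -/
structure IsNorm {n : ℕ} (N : (Fin n → ℝ) → ℝ) : Prop where
  nonneg : ∀ x, 0 ≤ N x
  eq_zero_iff : ∀ x, N x = 0 ↔ x = 0
  add_le : ∀ x y, N (x + y) ≤ N x + N y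
  smul : ∀ (t : ℝ) (x), N (t • x) = |t| * N x

/-- `N` is strictly convex: its unit sphere contains no non-degenerate segment. -/
def StrictlyConvex {n : ℕ} (N : (Fin n → ℝ) → ℝ) : Prop :=
  ∀ x y, N x = 1 → N y = 1 → x ≠ y → N ((1 / 2 : ℝ) • (x + y)) < 1

/-- `M'` is an `N`-isometric copy of `M`. -/
def IsCopy {n : ℕ} (N : (Fin n → ℝ) → ℝ) (M M' : Set (Fin n → ℝ)) : Prop :=
  ∃ f : (Fin n → ℝ) → (Fin n → ℝ), Set.BijOn f M M' ∧
    ∀ x ∈ M, ∀ y ∈ M, N (f x - f y) = N (x - y)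

/-- The colouring `c` has no monochromatic `N`-isometric copy of `M`. -/
def Avoids {n : ℕ} (N : (Fin n → ℝ) → ℝ) (M : Set (Fin n → ℝ)) {k : ℕ}
    (c : (Fin n → ℝ) → Fin k) : Prop :=
  ∀ M', IsCopy N M M' → ∃ x ∈ M', ∃ y ∈ M', c x ≠ c y

/-- `χ(ℝ^n, N, M)`: the least `k` such that some colouring with `k` colours has no monochromatic
`N`-isometric copy of `M` (`⊤` if there is no such `k`). -/
noncomputable def chi {n : ℕ} (N : (Fin n → ℝ) → ℝ) (M : Set (Fin n → ℝ)) : ℕ∞ :=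
  ⨅ (k : ℕ) (_ : ∃ c : (Fin n → ℝ) → Fin k, Avoids N M c), (k : ℕ∞)

open WithLp in
theorem strict_l2 {E F : Type*} [NormedAddCommGroup E] [NormedSpace ℝ E] [StrictConvexSpace ℝ E]
    [NormedAddCommGroup F] [NormedSpace ℝ F] [StrictConvexSpace ℝ F]
    (u v : WithLp 2 (E × F)) (hu : ‖u‖ = 1) (hv : ‖v‖ = 1) (huv : u ≠ v) : ‖u + v‖ < 2 := by
  by_contra hcon
  push Not at hcon
  have hu2 : ‖u.fst‖ ^ 2 + ‖u.snd‖ ^ 2 = 1 := by
    rw [← WithLp.prod_norm_sq_eq_of_L2, hu]; norm_num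
  have hv2 : ‖v.fst‖ ^ 2 + ‖v.snd‖ ^ 2 = 1 := by
    rw [← WithLp.prod_norm_sq_eq_of_L2, hv]; norm_num
  have hs : ‖(u + v).fst‖ ^ 2 + ‖(u + v).snd‖ ^ 2 = ‖u + v‖ ^ 2 :=
    (WithLp.prod_norm_sq_eq_of_L2 _).symm
  have hs4 : 4 ≤ ‖u + v‖ ^ 2 := by nlinarith
  have e1 : (u + v).fst = u.fst + v.fst := rfl
  have e2 : (u + v).snd = u.snd + v.snd := rfl
  rw [e1, e2] at hs
  have h1 := norm_add_le u.fst v.fst
  have h2 := norm_add_le u.snd v.snd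
  have p1 := norm_nonneg (u.fst + v.fst)
  have p2 := norm_nonneg (u.snd + v.snd)
  have a1 := norm_nonneg u.fst
  have a2 := norm_nonneg v.fst
  have b1 := norm_nonneg u.snd
  have b2 := norm_nonneg v.snd
  have q1 : ‖u.fst + v.fst‖ ^ 2 ≤ (‖u.fst‖ + ‖v.fst‖) ^ 2 := pow_le_pow_left₀ p1 h1 2
  have q2 : ‖u.snd + v.snd‖ ^ 2 ≤ (‖u.snd‖ + ‖v.snd‖) ^ 2 := pow_le_pow_left₀ p2 h2 2
  have hz : (‖u.fst‖ - ‖v.fst‖) ^ 2 + (‖u.snd‖ - ‖v.snd‖) ^ 2 ≤ 0 := by nlinarith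
  have z1 : ‖u.fst‖ = ‖v.fst‖ := by
    have : (‖u.fst‖ - ‖v.fst‖) ^ 2 = 0 := le_antisymm (by nlinarith [sq_nonneg (‖u.snd‖ - ‖v.snd‖)])
      (sq_nonneg _)
    exact sub_eq_zero.1 (pow_eq_zero_iff (two_ne_zero)|>.1 this)
  have z2 : ‖u.snd‖ = ‖v.snd‖ := by
    have : (‖u.snd‖ - ‖v.snd‖) ^ 2 = 0 := le_antisymm (by nlinarith [sq_nonneg (‖u.fst‖ - ‖v.fst‖)])
      (sq_nonneg _)
    exact sub_eq_zero.1 (pow_eq_zero_iff (two_ne_zero)|>.1 this)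
  have r1 : ‖u.fst + v.fst‖ = ‖u.fst‖ + ‖v.fst‖ := by
    have : (‖u.fst‖ + ‖v.fst‖) ^ 2 ≤ ‖u.fst + v.fst‖ ^ 2 := by nlinarith
    exact le_antisymm h1 ((pow_le_pow_iff_left₀ (by positivity) p1 two_ne_zero).1 this)
  have r2 : ‖u.snd + v.snd‖ = ‖u.snd‖ + ‖v.snd‖ := by
    have : (‖u.snd‖ + ‖v.snd‖) ^ 2 ≤ ‖u.snd + v.snd‖ ^ 2 := by nlinarith
    exact le_antisymm h2 ((pow_le_pow_iff_left₀ (by positivity) p2 two_ne_zero).1 this)
  have s1 : u.fst = v.fst := (sameRay_iff_of_norm_eq z1).1 (sameRay_iff_norm_add.2 r1)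
  have s2 : u.snd = v.snd := (sameRay_iff_of_norm_eq z2).1 (sameRay_iff_norm_add.2 r2)
  apply huv
  exact (WithLp.ofLp_injective 2) (Prod.ext s1 s2)

/-- **Result.** For every `n ≥ 35` there are a strictly convex norm `N` on `ℝ^n` and an infinite
set `M ⊆ ℝ^n` such that every `2`-colouring of `ℝ^n` has a monochromatic `N`-isometric copy of
`M`, that is, `χ(ℝ^n, N, M) ≥ 3`. -/
theorem result (n : ℕ) (hn : 35 ≤ n) :
    ∃ N : (Fin n → ℝ) → ℝ, IsNorm N ∧ StrictlyConvex N ∧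
      ∃ M : Set (Fin n → ℝ), M.Infinite ∧
        (∀ c : (Fin n → ℝ) → Fin 2, ∃ M', IsCopy N M M' ∧ ∀ x ∈ M', ∀ y ∈ M', c x = c y) ∧
        3 ≤ chi N M := by
  obtain ⟨E, i1, i2, i3, i4, M, hrank, hinf, hbad⟩ :=
    Pool.Agent.Lib.MP_0e6637_co.rapid_nu_de.exists_counterexample
  let F := EuclideanSpace ℝ (Fin (n - 35))
  have hfin : Module.finrank ℝ (Fin n → ℝ) = Module.finrank ℝ (WithLp 2 (E × F)) := by
    rw [Module.finrank_fin_fun, (WithLp.linearEquiv 2 ℝ (E × F)).finrank_eq, Module.finrank_prod,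
      hrank, finrank_euclideanSpace_fin]
    omega
  let e : (Fin n → ℝ) ≃ₗ[ℝ] WithLp 2 (E × F) := LinearEquiv.ofFinrankEq _ _ hfin
  let N : (Fin n → ℝ) → ℝ := fun x => ‖e x‖
  let ι : E → (Fin n → ℝ) := fun a => e.symm (WithLp.toLp 2 (a, (0 : F)))
  have hι : ∀ a b, N (ι a - ι b) = dist a b := by
    intro a b
    simp only [N, ι]
    rw [map_sub, LinearEquiv.apply_symm_apply, LinearEquiv.apply_symm_apply, ← WithLp.toLp_sub,
      Prod.mk_sub_mk, sub_zero, WithLp.prod_norm_eq_of_L2, dist_eq_norm]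
    simp
  have hN : IsNorm N := by
    refine ⟨fun x => norm_nonneg _, fun x => ?_, fun x y => ?_, fun t x => ?_⟩
    · exact norm_eq_zero.trans e.map_eq_zero_iff
    · simp only [N, map_add]; exact norm_add_le _ _
    · simp only [N, map_smul, norm_smul, Real.norm_eq_abs]
  have hιinj : Function.Injective ι := by
    intro a b hab
    have := hι a b
    rw [hab, sub_self, (hN.eq_zero_iff 0).2 rfl] at this
    exact dist_eq_zero.1 this.symm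
  have key : ∀ c : (Fin n → ℝ) → Fin 2, ∃ M', IsCopy N (ι '' M) M' ∧
      ∀ x ∈ M', ∀ y ∈ M', c x = c y := by
    intro c
    obtain ⟨f, hf, hmono⟩ := hbad (fun a => c (ι a))
    have hfst : ∀ a, (e (ι a)).fst = a := by
      intro a; simp [ι]
    refine ⟨ι '' (f '' M), ⟨fun z => ι (f (e z).fst), ⟨?_, ?_, ?_⟩, ?_⟩, ?_⟩
    · rintro _ ⟨a, ha, rfl⟩
      exact ⟨f a, ⟨a, ha, rfl⟩, by simp only [hfst]⟩
    · rintro _ ⟨a, ha, rfl⟩ _ ⟨b, hb, rfl⟩ hab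
      simp only [hfst] at hab
      have h0 := hf a ha b hb
      rw [hιinj hab, dist_self] at h0
      rw [dist_eq_zero.1 h0.symm]
    · rintro _ ⟨_, ⟨a, ha, rfl⟩, rfl⟩
      exact ⟨ι a, ⟨a, ha, rfl⟩, by simp only [hfst]⟩
    · rintro _ ⟨a, ha, rfl⟩ _ ⟨b, hb, rfl⟩
      simp only [hfst]
      rw [hι, hι, hf a ha b hb]
    · rintro _ ⟨_, ⟨a, ha, rfl⟩, rfl⟩ _ ⟨_, ⟨b, hb, rfl⟩, rfl⟩
      exact hmono a ha b hb
  refine ⟨N, hN, ?_, ι '' M, hinf.image hιinj.injOn, key, ?_⟩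
  · intro x y hx hy hxy
    have := strict_l2 (e x) (e y) hx hy (fun h => hxy (e.injective h))
    simp only [N, map_smul, map_add, norm_smul]
    norm_num
    linarith
  · unfold chi
    refine le_iInf fun k => le_iInf fun hk => ?_
    obtain ⟨c, hc⟩ := hk
    by_contra hlt
    have hk2 : k ≤ 2 := by
      have : (k : ℕ∞) < 3 := not_le.1 hlt
      have : k < 3 := by exact_mod_cast this
      omega
    obtain ⟨M', hM', hmono⟩ := key (fun x => Fin.castLE hk2 (c x))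
    obtain ⟨x, hx, y, hy, hne⟩ := hc M' hM'
    exact hne (Fin.castLE_injective hk2 (hmono x hx y hy))

end Pool.Agent.Results.MP_0e6637_co.EveryDimension
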